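import Pool.Agent.Helper67_COSB.Asm0
import Pool.Agent.Helper51_COSB.LTE
import Pool.Agent.Helper60_COSB.MEM
import Pool.Agent.Helper94_COSB.TME
import Pool.Agent.Helper52_COSB.RSF
import Pool.Agent.Helper26_COSB.RSM

/-!
# Squad COSB (MP_0fc649_lc): assembly of parts 2, 3 and 4
-/

set_option autoImplicit false

namespace Pool.Agent.COSB.H67

open Pool.Agent.PAR Pool.Agent.COS Pool.Agent.COSB

/-- all primes -/
theorem man (hONE : OneStmt) (h2 : ManStmt 2) (p : ℕ) (hp : p.Prime) : ManStmt p := by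
  by_cases h : p = 2
  · subst h
    exact h2
  · exact odm H51.lte hONE (H60.mem H10.tbl) p hp h

/-- all finite fields -/
theorem fin (hONE : OneStmt) (h2 : ManStmt 2) (E : Type) [Field E] [Finite E]
    (c : E → Word) : ManE E c :=
  H52.rsf H64.rst (H26.rsm H10.tbl) (man hONE h2) E c

/-- tensor isomorphism -/
theorem ten (hONE : OneStmt) (h2 : ManStmt 2) (hTGP : TgpStmt) (E : Type)
    [Field E] [Finite E] (c : E → Word) (l : ℕ) (hc : Function.Injective c)
    (hl : ∀ e, (c e).length = l) : InParityP (TensorIsoE c) :=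
  H21E.tfe hTGP (H94E.tme H10.tbl) E c l hc hl (fin hONE h2 E c)

end Pool.Agent.COSB.H67
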