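import Pool.Agent.Helper7_COSB.CNT
import Pool.Agent.Helper77_COSB.WDF
import Pool.Agent.Helper45_COSB.HPS
import Pool.Agent.Helper76_COSB.WDP
import Pool.Agent.Helper30_COSB.RHO
import Pool.Agent.Helper39_COSB.LFT
import Pool.Agent.Helper92_COSB.PRB
import Pool.Agent.Helper49_COSB.MNG
import Pool.Agent.Helper39_COSB.CAN
import Pool.Agent.Helper64_COSB.FLD
import Pool.Agent.Helper10_COSB.TBL
import Pool.Agent.Helper75_COSB.MCB
import Pool.Agent.Helper3_COSB.ODM
import Pool.Agent.Helper64_COSB.RST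
import Pool.Agent.Helper21_COSB.TFE
import Pool.Agent.Helper91_COS.GRP

/-!
# Squad COSB (MP_0fc649_lc): assembly, first part
-/

set_option autoImplicit false

namespace Pool.Agent.COSB.H67

open Pool.Agent.PAR Pool.Agent.COS Pool.Agent.COSB

theorem hps : HpsStmt := H45.hps H77.wdf H76.wdp H30.rhoRow H39.lft

theorem cnt (hLTE : LteStmt) : CntStmt :=
  H7.cnt H77.wdf hps (H92.prb COS.H91.grp H49.mng hLTE H39.can)

theorem odm (hLTE : LteStmt) (hONE : OneStmt) (hMEM : MemStmt) : OdmStmt :=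
  H3.odm hONE H64.fld (cnt hLTE) (H75.mcb H10.tbl hMEM)

end Pool.Agent.COSB.H67
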