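import Pool.Agent.Helper67_COSB.Asm
import Pool.Agent.Helper69_COSB.Fin
import Pool.Agent.Helper8_COSB.TGP

/-!
# Squad COSB (MP_0fc649_lc): the theorem
-/

set_option autoImplicit false

namespace Pool.Agent.COSB.H67

open Pool.Agent.PAR Pool.Agent.COS Pool.Agent.COSB

theorem final :
    (∀ p : ℕ, p.Prime → ∀ (V : Word × Word → Bool) (d k : Polynomial ℕ), PolyPair V →
      (∀ n, 0 < k.eval n) → ∀ P : Set Word, (∀ x ∈ P, Heap (modSols V p d k x)) →
        ∃ L, InParityP L ∧ ∀ x ∈ P, (x ∈ L ↔ (modSols V p d k x).Nonempty)) ∧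
    (∀ (E : Type) [Field E] [Finite E] (c : E → Word) (V : Word × Word → Bool)
      (d : Polynomial ℕ), PolyPair V → ∀ P : Set Word, (∀ x ∈ P, Heap (fldSols c V d x)) →
        ∃ L, InParityP L ∧ ∀ x ∈ P, (x ∈ L ↔ (fldSols c V d x).Nonempty)) ∧
    (∀ (V : Word × Word → Bool) (d w : Polynomial ℕ), PolyPair V → ∀ P : Set Word,
      (∀ x ∈ P, Heap (intSols V d w x)) →
        ∃ L, InParityP L ∧ ∀ x ∈ P, (x ∈ L ↔ (intSols V d w x).Nonempty)) ∧
    (∀ (E : Type) [Field E] [Finite E] (c : E → Word) (l : ℕ), Function.Injective c →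
      (∀ e, (c e).length = l) → InParityP (TensorIsoE c)) ∧
    ∃ L : Set Word, InParityP L ∧ ∀ (n w : ℕ) (Q Q' : Matrix (Fin n) (Fin n) ℤ), PosF Q →
      PosF Q' → (∀ i j, |Q i j| < 2 ^ w) → (∀ i j, |Q' i j| < 2 ^ w) →
        (encL n w Q Q' ∈ L ↔ IsoF Q Q') :=
  ⟨fun p hp => man H69.one H69.ma2 p hp, fun E _ _ c => fin H69.one H69.ma2 E c, H69.izf,
    fun E _ _ c l hc hl => ten H69.one H69.ma2 H8.tgp E c l hc hl, H69.lif⟩

end Pool.Agent.COSB.H67
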